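import Pool.Agent.helper84.QI.Spec
import Pool.Agent.helper9.TH.Final

set_option autoImplicit false

namespace Pool.Agent.QI

theorem QFB : QFB_stmt := by
  intro G _ a b hCE hP
  obtain ⟨p, hp, x, hx1, hx⟩ := hP
  by_contra hcon
  push Not at hcon
  haveI : Infinite G := hCE.inf
  refine (Pool.Agent.helper9.TH.final a b hCE.gen p hp x ?_ hx) hCE.fin
  intro m
  obtain ⟨N, h1, h2, h3⟩ := hcon m
  exact ⟨N, h1, h2, h3, by rw [hx1]; exact N.one_mem⟩

end Pool.Agent.QI
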